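import Mathlib
import Pool.Agent.Q184.Ball.Transfer

/-!
# Products of so-bounded balleans are so-bounded
-/

universe u v

open Set

namespace Pool.Agent.Results.MP_bddfa7_gt.SoProduct

variable {X : Type u} {Y : Type v}

/-- A coarse structure: a family of entourages that contains the diagonal and is closed under
subsets, finite unions, inverses and compositions. -/
structure IsCoarse (𝓔 : Set (Set (X × X))) : Prop where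
  diag : {p : X × X | p.1 = p.2} ∈ 𝓔
  subset : ∀ E ∈ 𝓔, ∀ F, F ⊆ E → F ∈ 𝓔
  union : ∀ E ∈ 𝓔, ∀ F ∈ 𝓔, E ∪ F ∈ 𝓔
  inv : ∀ E ∈ 𝓔, {p : X × X | (p.2, p.1) ∈ E} ∈ 𝓔
  comp : ∀ E ∈ 𝓔, ∀ F ∈ 𝓔, {p : X × X | ∃ y, (p.1, y) ∈ E ∧ (y, p.2) ∈ F} ∈ 𝓔

/-- A ballean: a connected coarse structure. -/
structure IsBallean (𝓔 : Set (Set (X × X))) : Prop extends IsCoarse 𝓔 where
  connected : ∀ x y, ∃ E ∈ 𝓔, (x, y) ∈ E

/-- `E[x] = {y : (x, y) ∈ E}`. -/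
def ball (E : Set (X × X)) (x : X) : Set X := {y | (x, y) ∈ E}

/-- Bounded sets. -/
def Bounded (𝓔 : Set (Set (X × X))) (B : Set X) : Prop := ∃ E ∈ 𝓔, ∃ x, B ⊆ ball E x

/-- Slowly oscillating functions. -/
def SlowlyOscillating (𝓔 : Set (Set (X × X))) (f : X → ℝ) : Prop :=
  ∀ E ∈ 𝓔, ∀ ε : ℝ, 0 < ε → ∃ B, Bounded 𝓔 B ∧
    ∀ x, x ∉ B → Metric.ediam (f '' ball E x) < ENNReal.ofReal ε

/-- so-bounded balleans: every slowly oscillating function is bounded off a bounded set. -/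
def SoBounded (𝓔 : Set (Set (X × X))) : Prop :=
  ∀ f : X → ℝ, SlowlyOscillating 𝓔 f → ∃ B, Bounded 𝓔 B ∧ ∃ K : ℝ, ∀ x, x ∉ B → |f x| ≤ K

/-- The entourage `{((x,y),(x',y')) : (x,x') ∈ E, (y,y') ∈ F}` of the product. -/
def prodEntourage (E : Set (X × X)) (F : Set (Y × Y)) : Set ((X × Y) × (X × Y)) :=
  {p | (p.1.1, p.2.1) ∈ E ∧ (p.1.2, p.2.2) ∈ F}

/-- The coarse structure on `X × Y` generated by the product entourages: the members of every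
coarse structure that contains all of them. -/
def prodStructure (𝓔 : Set (Set (X × X))) (𝓕 : Set (Set (Y × Y))) :
    Set (Set ((X × Y) × (X × Y))) :=
  {S | ∀ 𝓓 : Set (Set ((X × Y) × (X × Y))), IsCoarse 𝓓 →
    (∀ E ∈ 𝓔, ∀ F ∈ 𝓕, prodEntourage E F ∈ 𝓓) → S ∈ 𝓓}

theorem IsCoarse.simple {𝓔 : Set (Set (X × X))} {𝓕 : Set (Set (Y × Y))} (h𝓔 : IsCoarse 𝓔)
    (h𝓕 : IsCoarse 𝓕) :
    IsCoarse {S : Set ((X × Y) × (X × Y)) | ∃ E ∈ 𝓔, ∃ F ∈ 𝓕, S ⊆ prodEntourage E F} where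
  diag := by
    refine ⟨_, h𝓔.diag, _, h𝓕.diag, ?_⟩
    intro p hp
    have hp' : p.1 = p.2 := hp
    exact ⟨congrArg Prod.fst hp', congrArg Prod.snd hp'⟩
  subset := by
    rintro S ⟨E, hE, F, hF, h⟩ T hT
    exact ⟨E, hE, F, hF, hT.trans h⟩
  union := by
    rintro S ⟨E, hE, F, hF, h⟩ S' ⟨E', hE', F', hF', h'⟩
    refine ⟨E ∪ E', h𝓔.union E hE E' hE', F ∪ F', h𝓕.union F hF F' hF', ?_⟩
    rintro p (hp | hp)
    · exact ⟨Or.inl (h hp).1, Or.inl (h hp).2⟩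
    · exact ⟨Or.inr (h' hp).1, Or.inr (h' hp).2⟩
  inv := by
    rintro S ⟨E, hE, F, hF, h⟩
    exact ⟨_, h𝓔.inv E hE, _, h𝓕.inv F hF, fun p hp => ⟨(h hp).1, (h hp).2⟩⟩
  comp := by
    rintro S ⟨E, hE, F, hF, h⟩ S' ⟨E', hE', F', hF', h'⟩
    refine ⟨_, h𝓔.comp E hE E' hE', _, h𝓕.comp F hF F' hF', ?_⟩
    rintro p ⟨q, hq, hq'⟩
    exact ⟨⟨q.1, (h hq).1, (h' hq').1⟩, ⟨q.2, (h hq).2, (h' hq').2⟩⟩

theorem IsBallean.isBall {𝓔 : Set (Set (X × X))} (h : IsBallean 𝓔) : Q184.Ball.IsBall 𝓔 where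
  refl E hE := ⟨_, h.union E hE _ h.diag, subset_union_left, fun _ => Or.inr rfl⟩
  comp E hE F hF := ⟨_, h.comp E hE _ (h.inv F hF), fun _ y _ hxy hzy => ⟨y, hxy, hzy⟩⟩
  cover := h.connected

theorem osc_of_slowly {𝓔 : Set (Set (X × X))} {f : X → ℝ} (h : SlowlyOscillating 𝓔 f)
    {E : Set (X × X)} (hE : E ∈ 𝓔) {ε : ℝ} (hε : 0 < ε) : Q184.Ball.Osc 𝓔 f E ε := by
  obtain ⟨B, hB, hb⟩ := h E hE ε hε
  exact ⟨B, hB, fun x hx => (Q184.Ball.ediam_image_le hε.le).mp (hb x hx).le⟩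

theorem slowly_of_osc {𝓔 : Set (Set (X × X))} {f : X → ℝ}
    (h : ∀ E ∈ 𝓔, ∀ ε : ℝ, 0 < ε → Q184.Ball.Osc 𝓔 f E ε) : SlowlyOscillating 𝓔 f := by
  intro E hE ε hε
  obtain ⟨B, hB, hb⟩ := h E hE (ε / 2) (half_pos hε)
  refine ⟨B, hB, fun x hx => ?_⟩
  refine lt_of_le_of_lt ((Q184.Ball.ediam_image_le (half_pos hε).le).mpr (hb x hx)) ?_
  exact (ENNReal.ofReal_lt_ofReal_iff hε).mpr (half_lt_self hε)

/-- For any two so-bounded balleans `X`, `Y` the product ballean `X × Y` is so-bounded. -/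
theorem result {X : Type u} {Y : Type v} (𝓔 : Set (Set (X × X))) (𝓕 : Set (Set (Y × Y)))
    (h𝓔 : IsBallean 𝓔) (h𝓕 : IsBallean 𝓕) (hX : SoBounded 𝓔) (hY : SoBounded 𝓕) :
    SoBounded (prodStructure 𝓔 𝓕) := by
  intro f hf
  have hP1 : ∀ S ∈ prodStructure 𝓔 𝓕, ∃ E ∈ 𝓔, ∃ F ∈ 𝓕, S ⊆ Q184.Ball.rect E F := by
    intro S hS
    exact hS _ (h𝓔.toIsCoarse.simple h𝓕.toIsCoarse) fun E hE F hF => ⟨E, hE, F, hF, Subset.rfl⟩
  have hP2 : ∀ E ∈ 𝓔, ∀ F ∈ 𝓕, Q184.Ball.rect E F ∈ prodStructure 𝓔 𝓕 :=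
    fun E hE F hF 𝓓 _ h => h E hE F hF
  refine Q184.Ball.prod_core h𝓔.isBall h𝓕.isBall (prodStructure 𝓔 𝓕) hP1 hP2 f
    (fun S hS => ⟨1, osc_of_slowly hf hS one_pos⟩) ?_ ?_
  · intro g hg
    refine hX g (slowly_of_osc fun E hE ε hε => ?_)
    obtain ⟨E', hE', hsub, hr⟩ := h𝓔.isBall.refl E hE
    refine Q184.Ball.Osc.mono ?_ hsub
    exact hg E' hE' _ h𝓕.diag hr (fun _ => rfl) ε hε.le
      (osc_of_slowly hf (hP2 _ hE' _ h𝓕.diag) hε)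
  · intro g hg
    refine hY g (slowly_of_osc fun E hE ε hε => ?_)
    obtain ⟨E', hE', hsub, hr⟩ := h𝓕.isBall.refl E hE
    refine Q184.Ball.Osc.mono ?_ hsub
    exact hg _ h𝓔.diag E' hE' (fun _ => rfl) hr ε hε.le
      (osc_of_slowly hf (hP2 _ h𝓔.diag _ hE') hε)

end Pool.Agent.Results.MP_bddfa7_gt.SoProduct
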